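import Pool.Agent.Run7.h812.Iso.Gen

/-!
# Two one-generated unary algebras that are isotypic and not isomorphic
-/

namespace Run7.h812.Iso

open FirstOrder FirstOrder.Language

/-- The function symbols: all of them are unary. -/
inductive Fn : ℕ → Type
  | par : Fn 1
  | col : Fn 1
  | ch : ℕ → Fn 1

/-- The signature with countably many unary operation symbols `par`, `col`, `ch 0`, `ch 1`, …,
and no relation symbols. -/
def UL : Language.{0, 0} := ⟨Fn, fun _ => Empty⟩

instance : UL.IsAlgebraic := fun _ => inferInstanceAs (IsEmpty Empty)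

/-- The common carrier: the pair `(w, m)` is the vertex reached from the `m`-th vertex of the ray
by the word `w`. -/
abbrev Car : Type := List ℕ × ℕ

/-- The parent of a vertex. -/
def par : Car → Car
  | ([], m) => ([], m + 1)
  | (_ :: w, m) => (w, m)

/-- The `i`-th child of a vertex. -/
def ch (i : ℕ) (x : Car) : Car := (i :: x.1, x.2)

/-- The colour of a vertex is the parity of its level, shifted by `ε`. -/
def isOdd (ε : Bool) (x : Car) : Bool := (Nat.bodd (x.1.length + x.2)) ^^ ε

/-- The operation that codes the colour. -/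
def col (ε : Bool) (x : Car) : Car := if isOdd ε x then par x else x

/-- The two algebras. -/
def Alg (_ : Bool) : Type := Car

instance (ε : Bool) : UL.Structure (Alg ε) where
  funMap := fun {n} f => match n, f with
    | _, Fn.par => fun x => par (x 0)
    | _, Fn.col => fun x => col ε (x 0)
    | _, Fn.ch i => fun x => ch i (x 0)
  RelMap := fun r _ => Empty.elim r

/-- The symbols. -/
abbrev fpar : UL.Functions 1 := Fn.par
abbrev fcol : UL.Functions 1 := Fn.col
abbrev fch (i : ℕ) : UL.Functions 1 := Fn.ch i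

theorem fm_par (ε : Bool) (x : Fin 1 → Alg ε) : Structure.funMap fpar x = par (x 0) := rfl
theorem fm_col (ε : Bool) (x : Fin 1 → Alg ε) : Structure.funMap fcol x = col ε (x 0) := rfl
theorem fm_ch (ε : Bool) (i : ℕ) (x : Fin 1 → Alg ε) : Structure.funMap (fch i) x = ch i (x 0) :=
  rfl

/-- The shift. -/
def sh (x : Car) : Car := (x.1, x.2 + 1)

theorem sh_inj : Function.Injective sh := by
  rintro ⟨w, m⟩ ⟨w', m'⟩ h
  simp only [sh, Prod.mk.injEq, Nat.add_right_cancel_iff] at h
  exact Prod.ext h.1 h.2

theorem sh_par (x : Car) : sh (par x) = par (sh x) := by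
  rcases x with ⟨_ | ⟨a, w⟩, m⟩ <;> rfl

theorem sh_ch (i : ℕ) (x : Car) : sh (ch i x) = ch i (sh x) := rfl

theorem isOdd_sh (ε : Bool) (x : Car) : isOdd (!ε) x = isOdd ε (sh x) := by
  simp only [isOdd, sh, ← add_assoc, Nat.bodd_succ]
  cases (x.1.length + x.2).bodd <;> cases ε <;> rfl

theorem sh_col (ε : Bool) (x : Car) : sh (col (!ε) x) = col ε (sh x) := by
  unfold col
  rw [isOdd_sh]
  split_ifs
  · exact sh_par x
  · rfl

/-- The shift is an embedding between the two algebras. -/
def shE (ε : Bool) : Alg (!ε) ↪[UL] Alg ε where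
  toFun := sh
  inj' := sh_inj
  map_fun' := fun {n} f x => by
    match n, f with
    | _, Fn.par => exact sh_par (x 0)
    | _, Fn.col => exact sh_col ε (x 0)
    | _, Fn.ch i => exact sh_ch i (x 0)
  map_rel' := fun r _ => Empty.elim r

/-- The swap of the subtree below the `0`-th vertex of the ray and the subtree below the `j`-th
child of the first one. -/
def sw (j : ℕ) : Car → Car
  | (w, 0) => (w ++ [j], 1)
  | (w, 1) => if w.getLast? = some j then (w.dropLast, 0) else (w, 1)
  | (w, m + 2) => (w, m + 2)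

theorem sw_invol (j : ℕ) (x : Car) : sw j (sw j x) = x := by
  rcases x with ⟨w, _ | _ | m⟩
  · simp [sw]
  · by_cases h : w.getLast? = some j
    · simp only [sw, zero_add, h, if_true]
      rw [List.dropLast_append_getLast? j h]
    · simp [sw, h]
  · rfl

/-- The swap as a permutation. -/
def swE (j : ℕ) : Car ≃ Car := ⟨sw j, sw j, sw_invol j, sw_invol j⟩

theorem sw_par (j : ℕ) (x : Car) : sw j (par x) = par (sw j x) := by
  rcases x with ⟨_ | ⟨a, w⟩, _ | _ | m⟩
  · simp [sw, par]
  · simp [sw, par]
  · simp [sw, par]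
  · simp [sw, par]
  · simp only [par, sw, zero_add]
    rcases w with _ | ⟨b, w⟩
    · by_cases h : a = j <;> simp [h]
    · simp only [List.getLast?_cons_cons]
      split_ifs
      · simp [par]
      · rfl
  · rfl

theorem sw_ch (j i : ℕ) (h : i ≠ j) (x : Car) : sw j (ch i x) = ch i (sw j x) := by
  rcases x with ⟨w, _ | _ | m⟩
  · simp [sw, ch]
  · simp only [ch, sw, zero_add]
    rcases w with _ | ⟨b, w⟩
    · simp [h]
    · simp only [List.getLast?_cons_cons]
      split_ifs
      · simp
      · rfl
  · rfl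

theorem isOdd_sw (ε : Bool) (j : ℕ) (x : Car) : isOdd ε (sw j x) = isOdd ε x := by
  rcases x with ⟨w, _ | _ | m⟩
  · simp [sw, isOdd]
  · simp only [sw, zero_add]
    split_ifs with h
    · rcases List.eq_nil_or_concat w with rfl | ⟨u, b, rfl⟩
      · simp at h
      · simp [isOdd]
    · rfl
  · rfl

theorem sw_col (ε : Bool) (j : ℕ) (x : Car) : sw j (col ε x) = col ε (sw j x) := by
  unfold col
  rw [isOdd_sw]
  split_ifs
  · exact sw_par j x
  · rfl

theorem sw_sh (j : ℕ) (y : Car) (h : y.2 = 0 → y.1.getLast? ≠ some j) :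
    sw j (sh y) = sh y := by
  rcases y with ⟨w, _ | m⟩
  · simp only [sh, sw, zero_add]
    rw [if_neg (h rfl)]
  · rfl

/-- The Tarski–Vaught test for the shift. -/
theorem shE_tv (ε : Bool) (n : ℕ) (φ : UL.BoundedFormula Empty (n + 1))
    (x : Fin n → Alg (!ε)) (a : Alg ε)
    (ha : φ.Realize default (Fin.snoc (shE ε ∘ x) a : _ → Alg ε)) :
    ∃ b : Alg (!ε), φ.Realize default (Fin.snoc (shE ε ∘ x) (shE ε b) : _ → Alg ε) := by
  obtain ⟨w, m⟩ := (a : Car)
  rcases m with _ | m
  · obtain ⟨S, hS, hφ⟩ := formula_comm (M := Alg ε) φ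
    have hfin : ((⋃ s ∈ S, {j : ℕ | s = ⟨1, fch j⟩}) ∪
        ⋃ i : Fin n, {j : ℕ | (show Car from x i).1.getLast? = some j}).Finite := by
      refine Set.Finite.union (hS.biUnion fun s _ => ?_) (Set.finite_iUnion fun i => ?_)
      · refine Set.Subsingleton.finite ?_
        rintro j rfl j' hj'
        simp only [Set.mem_ofPred_eq, Sigma.mk.injEq, heq_eq_eq, true_and] at hj'
        exact Fn.ch.inj hj'
      · refine Set.Subsingleton.finite ?_
        intro j hj j' hj'
        have : some j = some j' := hj.symm.trans hj'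
        exact Option.some.inj this
    obtain ⟨j, hj⟩ := hfin.exists_notMem
    simp only [Set.mem_union, Set.mem_iUnion, Set.mem_ofPred_eq, not_or, not_exists] at hj
    have hcomm : Comm (M := Alg ε) S (swE j) := by
      rintro ⟨k, f⟩ hf y
      match k, f with
      | _, Fn.par => exact sw_par j (y 0)
      | _, Fn.col => exact sw_col ε j (y 0)
      | _, Fn.ch i =>
        refine sw_ch j i ?_ (y 0)
        rintro rfl
        exact hj.1 _ hf rfl
    let τ : Alg ε ≃ Alg ε := swE j
    let a : Alg ε := (w, 0)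
    have h1 : φ.Realize (τ ∘ default) (τ ∘ (Fin.snoc (shE ε ∘ x) a : Fin (n + 1) → Alg ε)) :=
      (hφ τ hcomm default (Fin.snoc (shE ε ∘ x) a)).2 ha
    rw [← snoc_comp (M := Alg ε) τ (shE ε ∘ x) a] at h1
    refine ⟨(w ++ [j], 0), ?_⟩
    have h2 : τ ∘ (shE ε ∘ x) = shE ε ∘ x := by
      funext i
      exact sw_sh j (x i) fun _ => hj.2 i
    rw [h2] at h1
    have h3 : (τ ∘ (default : Empty → Alg ε)) = default := Subsingleton.elim _ _
    rw [h3] at h1
    exact h1
  · exact ⟨(w, m), ha⟩

/-- The shift is an elementary embedding. -/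
def shEl (ε : Bool) : Alg (!ε) ↪ₑ[UL] Alg ε :=
  (shE ε).toElementaryEmbedding (shE_tv ε)

/-- The two algebras are isotypic. -/
theorem isotypic : Isotypic UL (Alg false) (Alg true) :=
  isotypic_of_elementary (shEl true) (shEl false)

/-- Each of the two algebras is generated by one element. -/
theorem closure_eq (ε : Bool) :
    Substructure.closure UL ({([], 0)} : Set (Alg ε)) = ⊤ := by
  rw [eq_top_iff]
  rintro ⟨w, m⟩ -
  have h0 : ∀ m : ℕ, (([], m) : Car) ∈ Substructure.closure UL ({([], 0)} : Set (Alg ε)) := by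
    intro m
    induction m with
    | zero => exact Substructure.subset_closure rfl
    | succ m ih =>
      exact (Substructure.closure UL ({([], 0)} : Set (Alg ε))).fun_mem fpar (fun _ => ([], m))
        fun _ => ih
  induction w with
  | nil => exact h0 m
  | cons i w ih =>
    exact (Substructure.closure UL ({([], 0)} : Set (Alg ε))).fun_mem (fch i) (fun _ => (w, m))
      fun _ => ih

theorem iter_par (m c : ℕ) : par^[m] (([], c) : Car) = ([], c + m) := by
  induction m with
  | zero => rfl
  | succ m ih =>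
    rw [Function.iterate_succ_apply', ih]
    rfl

/-- The two algebras are not isomorphic. -/
theorem not_iso : IsEmpty (Alg false ≃[UL] Alg true) := by
  refine ⟨fun e => ?_⟩
  let g : Car → Car := e
  let g' : Car → Car := e.symm
  have hg' : ∀ x, g' (g x) = x := fun x => e.symm_apply_apply x
  have hgg' : ∀ x, g (g' x) = x := fun x => e.apply_symm_apply x
  have hpar : ∀ x, g (par x) = par (g x) := fun x => e.map_fun fpar fun _ => x
  have hpar' : ∀ x, g' (par x) = par (g' x) := fun x => e.symm.map_fun fpar fun _ => x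
  have hch : ∀ i x, g (ch i x) = ch i (g x) := fun i x => e.map_fun (fch i) fun _ => x
  have hch' : ∀ i x, g' (ch i x) = ch i (g' x) := fun i x => e.symm.map_fun (fch i) fun _ => x
  have hcol : ∀ x, g (col false x) = col true (g x) := fun x => e.map_fun fcol fun _ => x
  have hnil : ∀ m, (g ([], m)).1 = [] := by
    intro m
    rcases h : g ([], m) with ⟨_ | ⟨i, w⟩, c⟩
    · rfl
    · exfalso
      have h1 : g' (ch i (w, c)) = ([], m) := by rw [← hg' ([], m), h]; rfl
      rw [hch'] at h1
      exact List.cons_ne_nil _ _ (congrArg Prod.fst h1)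
  have hnil' : ∀ m, (g' ([], m)).1 = [] := by
    intro m
    rcases h : g' ([], m) with ⟨_ | ⟨i, w⟩, c⟩
    · rfl
    · exfalso
      have h1 : g (ch i (w, c)) = ([], m) := by rw [← hgg' ([], m), h]; rfl
      rw [hch] at h1
      exact List.cons_ne_nil _ _ (congrArg Prod.fst h1)
  obtain ⟨c, hc⟩ : ∃ c, g ([], 0) = ([], c) := ⟨(g ([], 0)).2, Prod.ext (hnil 0) rfl⟩
  obtain ⟨c', hc'⟩ : ∃ c', g' ([], 0) = ([], c') := ⟨(g' ([], 0)).2, Prod.ext (hnil' 0) rfl⟩
  have hit : ∀ m x, g (par^[m] x) = par^[m] (g x) := by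
    intro m
    induction m with
    | zero => intro x; rfl
    | succ m ih => intro x; rw [Function.iterate_succ_apply, ih, hpar, Function.iterate_succ_apply]
  have h1 : g ([], c') = ([], c + c') := by
    have := hit c' ([], 0)
    rwa [iter_par, hc, iter_par, zero_add] at this
  rw [← hc', hgg'] at h1
  have h2 : 0 = c + c' := congrArg Prod.snd h1
  have h3 : c = 0 := by omega
  subst h3
  have h4 := hcol ([], 0)
  have h5 : col false ([], 0) = ([], 0) := rfl
  have h6 : col true ([], 0) = ([], 1) := rfl
  rw [h5, hc, h6] at h4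
  exact absurd (congrArg Prod.snd h4) (by decide)

end Run7.h812.Iso
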