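import Mathlib.ModelTheory.ElementaryMaps
import Mathlib.ModelTheory.FinitelyGenerated

/-!
# Types, isotypic algebras, and maps respecting finitely many symbols
-/

namespace Run7.h812.Iso

open FirstOrder FirstOrder.Language

variable {L : Language.{0, 0}}

/-- The type of a point `μ : X → H`: the set of all first-order formulas with free variables in
`X` that hold in `H` at `μ`. -/
def typeOf (L : Language.{0, 0}) {X H : Type} [L.Structure H] (μ : X → H) : Set (L.Formula X) :=
  {φ | φ.Realize μ}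

/-- `S^X(H)`: the set of all types realized by points `X → H`. -/
def realizedTypes (L : Language.{0, 0}) (X H : Type) [L.Structure H] : Set (Set (L.Formula X)) :=
  Set.range fun μ : X → H => typeOf L μ

/-- Two algebras are isotypic if `S^X(H₁) = S^X(H₂)` for every finite `X`. -/
def Isotypic (L : Language.{0, 0}) (H₁ H₂ : Type) [L.Structure H₁] [L.Structure H₂] : Prop :=
  ∀ (X : Type) [Finite X], realizedTypes L X H₁ = realizedTypes L X H₂

/-- Elementary embeddings do not change types. -/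
theorem realizedTypes_subset {X H₁ H₂ : Type} [L.Structure H₁] [L.Structure H₂]
    (e : H₁ ↪ₑ[L] H₂) : realizedTypes L X H₁ ⊆ realizedTypes L X H₂ := by
  rintro _ ⟨μ, rfl⟩
  refine ⟨e ∘ μ, ?_⟩
  ext φ
  exact e.map_formula φ μ

theorem isotypic_of_elementary {H₁ H₂ : Type} [L.Structure H₁] [L.Structure H₂]
    (e : H₁ ↪ₑ[L] H₂) (e' : H₂ ↪ₑ[L] H₁) : Isotypic L H₁ H₂ := fun _ _ =>
  Set.Subset.antisymm (realizedTypes_subset e) (realizedTypes_subset e')

/-- `τ` commutes with the function symbols in `S`. -/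
def Comm {M : Type} [L.Structure M] (S : Set (Σ n, L.Functions n)) (τ : M → M) : Prop :=
  ∀ s ∈ S, ∀ x : Fin s.1 → M, τ (Structure.funMap s.2 x) = Structure.funMap s.2 (τ ∘ x)

theorem term_comm {M : Type} [L.Structure M] {α : Type} (t : L.Term α) :
    ∃ S : Set (Σ n, L.Functions n), S.Finite ∧ ∀ τ : M → M, Comm S τ →
      ∀ v : α → M, τ (t.realize v) = t.realize (τ ∘ v) := by
  induction t with
  | var a => exact ⟨∅, Set.finite_empty, fun τ _ v => rfl⟩
  | @func n f ts ih =>
    choose S hS h using ih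
    refine ⟨insert ⟨n, f⟩ (⋃ i, S i), (Set.finite_iUnion hS).insert _, fun τ hτ v => ?_⟩
    have h1 := hτ ⟨n, f⟩ (Set.mem_insert _ _) (fun i => (ts i).realize v)
    rw [Term.realize_func, h1, Term.realize_func]
    congr 1
    funext i
    exact h i τ (fun s hs => hτ s (Set.mem_insert_of_mem _ (Set.mem_iUnion.2 ⟨i, hs⟩))) v

theorem snoc_comp {M : Type} {n : ℕ} (τ : M → M) (xs : Fin n → M) (a : M) :
    (Fin.snoc (τ ∘ xs) (τ a) : Fin (n + 1) → M) = τ ∘ (Fin.snoc xs a : Fin (n + 1) → M) :=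
  (Fin.comp_snoc τ xs a).symm

/-- A formula is preserved by every permutation that commutes with the finitely many symbols
occurring in it. -/
theorem formula_comm {M : Type} [L.Structure M] [L.IsAlgebraic] {α : Type} {n : ℕ}
    (φ : L.BoundedFormula α n) :
    ∃ S : Set (Σ n, L.Functions n), S.Finite ∧ ∀ τ : M ≃ M, Comm S τ →
      ∀ (v : α → M) (xs : Fin n → M), φ.Realize (τ ∘ v) (τ ∘ xs) ↔ φ.Realize v xs := by
  induction φ with
  | falsum => exact ⟨∅, Set.finite_empty, fun τ _ v xs => Iff.rfl⟩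
  | equal t₁ t₂ =>
    obtain ⟨S₁, h₁, k₁⟩ := term_comm (M := M) t₁
    obtain ⟨S₂, h₂, k₂⟩ := term_comm (M := M) t₂
    refine ⟨S₁ ∪ S₂, h₁.union h₂, fun τ hτ v xs => ?_⟩
    have e₁ := k₁ τ (fun s hs => hτ s (Or.inl hs)) (Sum.elim v xs)
    have e₂ := k₂ τ (fun s hs => hτ s (Or.inr hs)) (Sum.elim v xs)
    simp only [BoundedFormula.Realize, ← Sum.comp_elim, ← e₁, ← e₂]
    exact τ.injective.eq_iff
  | rel R ts => exact isEmptyElim R
  | imp φ ψ ih₁ ih₂ =>
    obtain ⟨S₁, h₁, k₁⟩ := ih₁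
    obtain ⟨S₂, h₂, k₂⟩ := ih₂
    refine ⟨S₁ ∪ S₂, h₁.union h₂, fun τ hτ v xs => ?_⟩
    simp only [BoundedFormula.realize_imp]
    rw [k₁ τ (fun s hs => hτ s (Or.inl hs)), k₂ τ (fun s hs => hτ s (Or.inr hs))]
  | all φ ih =>
    obtain ⟨S, h, k⟩ := ih
    refine ⟨S, h, fun τ hτ v xs => ?_⟩
    simp only [BoundedFormula.realize_all]
    constructor
    · intro H a
      have := H (τ a)
      rw [snoc_comp] at this
      exact (k τ hτ v _).1 this
    · intro H a
      obtain ⟨b, rfl⟩ := τ.surjective a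
      rw [snoc_comp]
      exact (k τ hτ v _).2 (H b)

end Run7.h812.Iso
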